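import Pool.Agent.Run7.h677.Dom.One

/-!
# Flows in graphs covered by few balls
-/

set_option autoImplicit false
set_option linter.unusedSectionVars false

namespace Run7.h677.Dom

open Finset Pool.Agent.TH676.Z Pool.Agent.Y335.FL Pool.Agent.Y358.IN

/-- the simple graph of a multigraph -/
def gr {V E : Type} (s d : E → V) : SimpleGraph V where
  Adj := Adj s d
  symm := ⟨fun _ _ h => GiAux.adj_symm h⟩
  loopless := ⟨fun _ h => h.1 rfl⟩

section

variable {V E : Type} [Fintype V] [DecidableEq V] [Fintype E] [DecidableEq E]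

/-- the class -/
def ClD (r n : ℕ) (src dst : E → V) : Prop :=
  ∃ S : Finset V, S.card ≤ n ∧ ∀ x y, Adj src dst x y → W (gr src dst) S r x

theorem W_ctr {src dst : E → V} {u v : V} {S : Finset V} : ∀ (n : ℕ) (x : V),
    W (gr src dst) S n x →
      W (gr (ctr u v ∘ src) (ctr u v ∘ dst)) (S.image (ctr u v)) n (ctr u v x) := by
  intro n
  induction n with
  | zero =>
    intro x hx
    exact mem_image.2 ⟨x, hx, rfl⟩
  | succ n ih =>
    intro x hx
    rcases hx with hx | ⟨y, hy, hx⟩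
    · exact Or.inl (ih x hx)
    · by_cases h : ctr u v x = ctr u v y
      · rw [h]
        exact Or.inl (ih y hx)
      · exact Or.inr ⟨ctr u v y, adj_ctr hy h, ih y hx⟩

theorem ccD (r n : ℕ) : CC (V := V) (E := E) (ClD r n) := by
  intro src dst e h hne
  obtain ⟨S, hS, hW⟩ := h
  refine ⟨S.image (ctr (src e) (dst e)), card_image_le.trans hS, ?_⟩
  rintro x' y' ⟨hxy, f, hf⟩
  have key : ∀ a b, Adj src dst a b → ctr (src e) (dst e) a = x' →
      W (gr (ctr (src e) (dst e) ∘ src) (ctr (src e) (dst e) ∘ dst))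
        (S.image (ctr (src e) (dst e))) r x' := by
    intro a b hab ha
    rw [← ha]
    exact W_ctr r a (hW a b hab)
  rcases hf with ⟨h1, h2⟩ | ⟨h1, h2⟩
  · refine key (src f) (dst f) ⟨?_, f, Or.inl ⟨rfl, rfl⟩⟩ h1
    intro h
    apply hxy
    rw [← h1, ← h2]
    simp [h]
  · refine key (dst f) (src f) ⟨?_, f, Or.inr ⟨rfl, rfl⟩⟩ h2
    intro h
    apply hxy
    rw [← h1, ← h2]
    simp [h]

end

/-- the numbers -/
def Good (r n : ℕ) : Prop :=
  (r = 1 ∧ n = 24) ∨ (r = 2 ∧ n = 12) ∨ (r = 3 ∧ n = 4) ∨ (r = 4 ∧ n = 2) ∨ (r = 5 ∧ n = 1)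

/-- **Main step.** -/
theorem flow_of_ClD (hc : St_contract) {V E : Type} [Fintype V] [DecidableEq V]
    [Fintype E] [DecidableEq E] (src dst : E → V) {r n : ℕ} (hrn : Good r n)
    (hcl : ClD r n src dst) (hbr : Br src dst ∅ ∅) : FlowOn src dst ∅ ∅ := by
  classical
  by_contra hn
  obtain ⟨s, d, ⟨S, hS, hW⟩, hM⟩ := exists_minC (ccD r n) src dst hcl hbr hn
  have h3 := threeC hc hM
  have hgi := girthC hc hM
  by_cases hl : ∀ e, s e = d e
  · exact hM.nf (flow_of_loops hl)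
  push Not at hl
  obtain ⟨e, he⟩ := hl
  have hG : ∀ a b, (gr s d).Adj a b ↔ Adj s d a b := fun a b => Iff.rfl
  have h12 : ∀ (w : V) (c : (gr s d).Walk w w), c.IsCycle → 12 ≤ c.length :=
    fun w c hc => Ord.cycle_len hgi (gr s d) hG c hc
  have hxy : (gr s d).Adj (s e) (d e) := ⟨he, e, Or.inl ⟨rfl, rfl⟩⟩
  have h3' : ∀ x y, (gr s d).Adj x y → ∃ a b c, (gr s d).Adj x a ∧ (gr s d).Adj x b ∧
      (gr s d).Adj x c ∧ a ≠ b ∧ a ≠ c ∧ b ≠ c := fun x y h => h3 x y h
  let C : Cells (gr s d) r S := cells hW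
  have hcard := card_Po h12 h3' hxy
  have hN : 126 ≤ C.Nv.card := by
    refine hcard.trans (card_le_card ?_)
    intro v hv
    rw [C.mem_Nv]
    rcases mem_union.1 hv with h | h
    · obtain ⟨p, _, _, _⟩ := mem_Po.1 h
      exact Ord.nbr hxy p
    · obtain ⟨p, _, _, _⟩ := mem_Po.1 h
      exact Ord.nbr hxy.symm p
  rcases hrn with ⟨hr, rfl⟩ | ⟨hr, rfl⟩ | ⟨hr, rfl⟩ | ⟨hr, rfl⟩ | ⟨hr, rfl⟩
  · exact C.one_many h12 h3' hr.le hS hN
  · exact C.two_twelve h12 h3' hr.le hS hN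
  · exact C.three_four h12 h3' hr.le hS (by omega)
  · exact C.four_two h12 h3' hr.le hS hxy
  · exact C.five_one h12 h3' hr.le hS hxy

end Run7.h677.Dom
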