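import Mathlib

/-!
# A counting lemma for triangle-free graphs
-/

set_option autoImplicit false

namespace Run7.h677.Dom

open Finset

variable {V : Type} [DecidableEq V]

theorem abs_one (Z : Finset V) (Nb Mb : V → Finset V)
    (hsub : ∀ b ∈ Z, Nb b ⊆ Z) (hsym : ∀ a b, a ∈ Nb b → b ∈ Nb a)
    (htri : ∀ a b c, a ∈ Nb b → c ∈ Nb a → c ∉ Nb b)
    (hM : ∀ b ∈ Z, Mb b ⊆ Nb b)
    (hQ : ∀ b ∈ Z, ∀ a ∈ Mb b, ∃ c ∈ Nb a, c ≠ b ∧ ∀ a' ∈ Nb b, a' ∈ Nb c → a' = a)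
    (b : V) (hb : b ∈ Z) :
    ∑ a ∈ Nb b, ((Nb a).card : ℤ) ≤
      ((Z.card : ℤ) - (Nb b).card - (Mb b).card) * (Nb b).card + (Mb b).card := by
  classical
  choose! φ hφ1 hφ2 hφ3 using hQ b hb
  set Fm := (Mb b).image φ with hFm
  have hinj : Fm.card = (Mb b).card := by
    rw [hFm, card_image_of_injOn]
    intro x hx y hy hxy
    have hx1 := hφ1 x (mem_coe.1 hx)
    have hy1 := hφ1 y (mem_coe.1 hy)
    have h1 := hφ3 x (mem_coe.1 hx) y (hM b hb (mem_coe.1 hy)) (by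
      rw [show φ x = φ y from hxy]
      exact hsym _ _ hy1)
    exact h1.symm
  have hFsub : Fm ⊆ Z := by
    intro c hc
    obtain ⟨a, ha, rfl⟩ := mem_image.1 hc
    exact hsub a (hsub b hb (hM b hb ha)) (hφ1 a ha)
  have hdisj : Disjoint (Nb b) Fm := by
    rw [Finset.disjoint_right]
    intro c hc
    obtain ⟨a, ha, rfl⟩ := mem_image.1 hc
    exact htri a b _ (hM b hb ha) (hφ1 a ha)
  have hU : Nb b ∪ Fm ⊆ Z := union_subset (hsub b hb) hFsub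
  -- double counting
  have h1 : ∑ a ∈ Nb b, ((Nb a).card : ℤ) = ∑ c ∈ Z, (((Nb b).filter (fun a => c ∈ Nb a)).card : ℤ) := by
    have h2 : ∀ a ∈ Nb b, ((Nb a).card : ℤ) = ∑ c ∈ Z, (if c ∈ Nb a then 1 else 0) := by
      intro a ha
      rw [sum_boole]
      congr 2
      ext c
      rw [mem_filter]
      exact ⟨fun h => ⟨hsub a (hsub b hb ha) h, h⟩, fun h => h.2⟩
    rw [sum_congr rfl h2, sum_comm]
    refine sum_congr rfl fun c _ => ?_
    rw [sum_boole]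
  rw [h1, ← sum_sdiff hU, sum_union hdisj]
  have h3 : ∑ c ∈ Nb b, (((Nb b).filter (fun a => c ∈ Nb a)).card : ℤ) = 0 := by
    refine sum_eq_zero fun c hc => ?_
    rw [Nat.cast_eq_zero, card_eq_zero, filter_eq_empty_iff]
    intro a ha hca
    exact htri a b c ha hca hc
  have h4 : ∑ c ∈ Fm, (((Nb b).filter (fun a => c ∈ Nb a)).card : ℤ) ≤ (Mb b).card := by
    rw [← hinj]
    have : ∑ c ∈ Fm, (((Nb b).filter (fun a => c ∈ Nb a)).card : ℤ) ≤ ∑ c ∈ Fm, 1 := by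
      refine sum_le_sum fun c hc => ?_
      obtain ⟨a, ha, rfl⟩ := mem_image.1 hc
      have h5 : ((Nb b).filter (fun a' => φ a ∈ Nb a')) ⊆ {a} := by
        intro a' ha'
        obtain ⟨h6, h7⟩ := mem_filter.1 ha'
        exact mem_singleton.2 (hφ3 a ha a' h6 (hsym _ _ h7))
      have := card_le_card h5
      rw [card_singleton] at this
      exact_mod_cast this
    simpa using this
  have h5 : ∑ c ∈ Z \ (Nb b ∪ Fm), (((Nb b).filter (fun a => c ∈ Nb a)).card : ℤ) ≤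
      ((Z.card : ℤ) - (Nb b).card - (Mb b).card) * (Nb b).card := by
    have h6 : ∑ c ∈ Z \ (Nb b ∪ Fm), (((Nb b).filter (fun a => c ∈ Nb a)).card : ℤ) ≤
        ∑ c ∈ Z \ (Nb b ∪ Fm), ((Nb b).card : ℤ) := by
      refine sum_le_sum fun c _ => ?_
      exact_mod_cast card_filter_le _ _
    rw [sum_const, nsmul_eq_mul] at h6
    have h7 : ((Z \ (Nb b ∪ Fm)).card : ℤ) = (Z.card : ℤ) - (Nb b).card - (Mb b).card := by
      have h8 := card_sdiff_add_card_eq_card hU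
      rw [card_union_of_disjoint hdisj, hinj] at h8
      have : ((Z \ (Nb b ∪ Fm)).card : ℤ) + ((Nb b).card + (Mb b).card) = Z.card := by
        exact_mod_cast h8
      linarith
    rw [h7] at h6
    exact h6
  linarith

theorem abs_poly (d m t : ℤ) (hm : 0 ≤ m) (hmd : m ≤ d) :
    3 * t * m - t ^ 2 ≤ 3 * (2 * d ^ 2 + m * d - (t - 1) * d - m) := by
  obtain ⟨e, rfl⟩ : ∃ e, d = m + e := ⟨d - m, by ring⟩
  have he : 0 ≤ e := by linarith
  nlinarith [sq_nonneg (2 * (t - 3 * m) - 3 * e), mul_nonneg hm he, sq_nonneg e]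

/-- the sum -/
theorem abs_sum (Z : Finset V) (Nb Mb : V → Finset V)
    (hsub : ∀ b ∈ Z, Nb b ⊆ Z) (hsym : ∀ a b, a ∈ Nb b → b ∈ Nb a)
    (htri : ∀ a b c, a ∈ Nb b → c ∈ Nb a → c ∉ Nb b)
    (hM : ∀ b ∈ Z, Mb b ⊆ Nb b)
    (hQ : ∀ b ∈ Z, ∀ a ∈ Mb b, ∃ c ∈ Nb a, c ≠ b ∧ ∀ a' ∈ Nb b, a' ∈ Nb c → a' = a) :
    3 * ∑ b ∈ Z, (Mb b).card ≤ Z.card * (Z.card + 1) := by
  classical
  have h1 := sum_le_sum (s := Z) (fun b hb => abs_one Z Nb Mb hsub hsym htri hM hQ b hb)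
  have h2 : ∑ b ∈ Z, ∑ a ∈ Nb b, ((Nb a).card : ℤ) = ∑ a ∈ Z, ((Nb a).card : ℤ) ^ 2 := by
    have h3 : ∀ b ∈ Z, ∑ a ∈ Nb b, ((Nb a).card : ℤ) =
        ∑ a ∈ Z, (if a ∈ Nb b then ((Nb a).card : ℤ) else 0) := by
      intro b hb
      rw [← sum_filter]
      refine sum_congr ?_ fun _ _ => rfl
      ext a
      rw [mem_filter]
      exact ⟨fun h => ⟨hsub b hb h, h⟩, fun h => h.2⟩
    rw [sum_congr rfl h3, sum_comm]
    refine sum_congr rfl fun a ha => ?_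
    rw [← sum_filter, sum_const, nsmul_eq_mul, sq]
    congr 2
    congr 1
    ext b
    rw [mem_filter]
    exact ⟨fun h => hsym _ _ h.2, fun h => ⟨hsub a ha h, hsym _ _ h⟩⟩
  rw [h2] at h1
  have h4 : ∑ b ∈ Z, (3 * ((Z.card : ℤ) + 1) * (Mb b).card - ((Z.card : ℤ) + 1) ^ 2) ≤ 0 := by
    have h5 : ∑ b ∈ Z, (3 * ((Z.card : ℤ) + 1) * (Mb b).card - ((Z.card : ℤ) + 1) ^ 2) ≤
        ∑ b ∈ Z, 3 * (2 * ((Nb b).card : ℤ) ^ 2 + (Mb b).card * (Nb b).card -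
          (((Z.card : ℤ) + 1) - 1) * (Nb b).card - (Mb b).card) :=
      sum_le_sum fun b hb => abs_poly _ _ _ (by positivity)
        (by exact_mod_cast card_le_card (hM b hb))
    refine h5.trans ?_
    rw [← mul_sum]
    have h6 : ∑ b ∈ Z, (2 * ((Nb b).card : ℤ) ^ 2 + (Mb b).card * (Nb b).card -
          (((Z.card : ℤ) + 1) - 1) * (Nb b).card - (Mb b).card) =
        ∑ b ∈ Z, ((Nb b).card : ℤ) ^ 2 - ∑ b ∈ Z, (((Z.card : ℤ) - (Nb b).card - (Mb b).card) *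
          (Nb b).card + (Mb b).card) := by
      rw [← sum_sub_distrib]
      refine sum_congr rfl fun b _ => ?_
      ring
    rw [h6]
    linarith
  rw [sum_sub_distrib, ← mul_sum, sum_const, nsmul_eq_mul] at h4
  have h7 : ((Z.card : ℤ) + 1) * (3 * ∑ b ∈ Z, ((Mb b).card : ℤ)) ≤
      ((Z.card : ℤ) + 1) * ((Z.card : ℤ) * ((Z.card : ℤ) + 1)) := by linarith
  have h8 := le_of_mul_le_mul_left h7 (by positivity)
  exact_mod_cast h8

end Run7.h677.Dom
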