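import Pool.Agent.Y358.IN.Ind2

/-!
# Cells of balls in graphs of girth at least twelve
-/

set_option autoImplicit false
set_option linter.unusedSectionVars false

namespace Run7.h677.Dom

open SimpleGraph

variable {V : Type} [Fintype V] [DecidableEq V] {G : SimpleGraph V}

/-- `x` is at distance at most `n` from `S`. -/
def W (G : SimpleGraph V) (S : Finset V) : ℕ → V → Prop
  | 0, x => x ∈ S
  | n + 1, x => W G S n x ∨ ∃ y, G.Adj x y ∧ W G S n y

/-- The partition of the vertices which are not isolated into trees of depth at most `r`. -/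
structure Cells (G : SimpleGraph V) (r : ℕ) (S : Finset V) where
  D : V → ℕ
  par : V → V
  cc : V → V
  hD : ∀ x y, G.Adj x y → D x ≤ r
  h0 : ∀ x y, G.Adj x y → D x = 0 → x ∈ S
  c0 : ∀ x, D x = 0 → cc x = x
  hl : ∀ x y, G.Adj x y → D y ≤ D x + 1
  ap : ∀ x, 0 < D x → G.Adj x (par x)
  dp : ∀ x, 0 < D x → D (par x) + 1 = D x
  cp : ∀ x, 0 < D x → cc (par x) = cc x

theorem W_mono {S : Finset V} {n m : ℕ} (h : n ≤ m) {x : V} (hx : W G S n x) : W G S m x := by
  induction h with
  | refl => exact hx
  | step _ ih => exact Or.inl ih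

open Classical in
/-- distance to `S` -/
noncomputable def dS (G : SimpleGraph V) (S : Finset V) (x : V) : ℕ :=
  if h : ∃ n, W G S n x then Nat.find h else 0

theorem dS_le {S : Finset V} {n : ℕ} {x : V} (h : W G S n x) : dS G S x ≤ n := by
  classical
  unfold dS
  rw [dif_pos ⟨n, h⟩]
  exact Nat.find_min' _ h

theorem W_dS {S : Finset V} {n : ℕ} {x : V} (h : W G S n x) : W G S (dS G S x) x := by
  classical
  unfold dS
  rw [dif_pos ⟨n, h⟩]
  exact Nat.find_spec (⟨n, h⟩ : ∃ n, W G S n x)

theorem dS_par {S : Finset V} {x : V} (h : 0 < dS G S x) :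
    ∃ y, G.Adj x y ∧ W G S (dS G S x - 1) y ∧ dS G S y + 1 = dS G S x := by
  classical
  have hex : ∃ n, W G S n x := by
    by_contra hn
    unfold dS at h
    rw [dif_neg hn] at h
    exact absurd h (lt_irrefl 0)
  obtain ⟨n, hn⟩ := hex
  have h1 := W_dS hn
  obtain ⟨m, hm⟩ : ∃ m, dS G S x = m + 1 := ⟨dS G S x - 1, by omega⟩
  rw [hm] at h1
  rcases h1 with h1 | ⟨y, hy, hy1⟩
  · have := dS_le h1
    omega
  · refine ⟨y, hy, by rw [hm]; exact hy1, ?_⟩
    have h2 := dS_le hy1
    have h3 : W G S (dS G S y + 1) x := Or.inr ⟨y, hy, W_dS hy1⟩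
    have h4 := dS_le h3
    omega

open Classical in
noncomputable def parS (G : SimpleGraph V) (S : Finset V) (x : V) : V :=
  if h : 0 < dS G S x then (dS_par h).choose else x

theorem parS_spec {S : Finset V} {x : V} (h : 0 < dS G S x) :
    G.Adj x (parS G S x) ∧ W G S (dS G S x - 1) (parS G S x) ∧
      dS G S (parS G S x) + 1 = dS G S x := by
  unfold parS
  rw [dif_pos h]
  exact (dS_par h).choose_spec

/-- The partition into cells. -/
noncomputable def cells {r : ℕ} {S : Finset V} (hW : ∀ x y, G.Adj x y → W G S r x) :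
    Cells G r S where
  D := dS G S
  par := parS G S
  cc := fun x => (parS G S)^[dS G S x] x
  hD := fun x y h => dS_le (hW x y h)
  h0 := fun x y h h0 => by
    have := W_dS (hW x y h)
    rw [h0] at this
    exact this
  c0 := fun x h => by
    show (parS G S)^[dS G S x] x = x
    rw [h]
    rfl
  hl := fun x y h => dS_le (Or.inr ⟨x, h.symm, W_dS (hW x y h)⟩)
  ap := fun x h => (parS_spec h).1
  dp := fun x h => (parS_spec h).2.2
  cp := fun x h => by
    show (parS G S)^[dS G S (parS G S x)] (parS G S x) = (parS G S)^[dS G S x] x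
    have h1 := (parS_spec h).2.2
    rw [← h1]
    rfl

namespace Cells

variable {r : ℕ} {S : Finset V} (C : Cells G r S)

theorem tree_walk : ∀ (n : ℕ) (x : V), C.D x = n → ∃ p : G.Walk x (C.cc x), p.length = n ∧
    p.IsPath ∧ (∀ z ∈ p.support, C.cc z = C.cc x ∧ C.D z ≤ n) ∧
    (0 < n → p.snd = C.par x) := by
  intro n
  induction n with
  | zero =>
    intro x hx
    have h := C.c0 x hx
    refine ⟨(Walk.nil : G.Walk x x).copy rfl h.symm, by simp, by simp, ?_, ?_⟩
    · intro z hz
      rw [Walk.support_copy, Walk.support_nil, List.mem_singleton] at hz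
      subst hz
      exact ⟨rfl, hx.le⟩
    · intro h
      exact absurd h (lt_irrefl 0)
  | succ n ih =>
    intro x hx
    have hpos : 0 < C.D x := by omega
    have h1 := C.dp x hpos
    obtain ⟨p, hp1, hp2, hp3, -⟩ := ih (C.par x) (by omega)
    have hc := C.cp x hpos
    refine ⟨Walk.cons (C.ap x hpos) (p.copy rfl hc), by simp [hp1], ?_, ?_, ?_⟩
    · rw [Walk.cons_isPath_iff]
      refine ⟨by simpa using hp2, ?_⟩
      rw [Walk.support_copy]
      intro hx'
      have := (hp3 x hx').2
      omega
    · intro z hz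
      rw [Walk.support_cons, List.mem_cons] at hz
      rcases hz with rfl | hz
      · exact ⟨rfl, hx.le⟩
      · rw [Walk.support_copy] at hz
        have := hp3 z hz
        exact ⟨this.1.trans hc, this.2.trans (Nat.le_succ n)⟩
    · intro _
      simp

variable (h12 : ∀ (w : V) (c : G.Walk w w), c.IsCycle → 12 ≤ c.length)

include h12

/-- neighbours in the same cell -/
theorem same_cell (hr : r ≤ 5) {x y : V} (hxy : G.Adj x y) (hc : C.cc x = C.cc y) :
    (0 < C.D x ∧ C.par x = y) ∨ (0 < C.D y ∧ C.par y = x) := by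
  -- the main case
  have key : ∀ x y : V, G.Adj x y → C.cc x = C.cc y → C.D y ≤ C.D x →
      0 < C.D x ∧ C.par x = y := by
    intro x y hxy hc hle
    have hDx := C.hD x y hxy
    obtain ⟨p, hp1, hp2, hp3, hp4⟩ := C.tree_walk _ x rfl
    obtain ⟨q, hq1, hq2, hq3, -⟩ := C.tree_walk _ y rfl
    have hxq : x ∉ q.support := by
      intro hx
      -- `D` is at most `D y` on the support, so `D x = D y`, and `q` has a tail from `x`
      have h1 := (hq3 x hx).2
      have hne : x ≠ y := hxy.ne
      obtain ⟨m, hm⟩ : ∃ m, C.D y = m := ⟨_, rfl⟩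
      rcases Nat.eq_zero_or_pos m with h0 | h0
      · have : q.length = 0 := by omega
        have hnil : q.Nil := Walk.length_eq_zero_iff.1 this
        have h2 := hnil.eq
        have h3 := C.c0 y (by omega)
        have h4 := C.c0 x (by omega)
        exact hne (by rw [← h4, hc, h3])
      · obtain ⟨q', hq1', hq2', hq3', -⟩ := C.tree_walk _ (C.par y) rfl
        have h5 := C.dp y (by omega)
        have h6 := C.cp y (by omega)
        -- the walk `y, par y, ...` is a path
        have h7 : (Walk.cons (C.ap y (by omega)) (q'.copy rfl h6)).IsPath := by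
          rw [Walk.cons_isPath_iff]
          refine ⟨by simpa using hq2', ?_⟩
          rw [Walk.support_copy]
          intro hy
          have := (hq3' y hy).2
          omega
        have h8 := Pool.Agent.Y335.FL.Ord.uniq h12 hq2 h7 (by
          rw [Walk.length_cons, Walk.length_copy]
          omega)
        rw [h8, Walk.support_cons, List.mem_cons, Walk.support_copy] at hx
        rcases hx with h | h
        · exact hne h
        · have := (hq3' x h).2
          omega
    have h1 : (Walk.cons hxy (q.copy rfl hc.symm)).IsPath := by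
      rw [Walk.cons_isPath_iff]
      exact ⟨by simpa using hq2, by rw [Walk.support_copy]; exact hxq⟩
    have h2 := Pool.Agent.Y335.FL.Ord.uniq h12 hp2 h1 (by
      rw [Walk.length_cons, Walk.length_copy]
      omega)
    have h3 := congrArg Walk.length h2
    rw [Walk.length_cons, Walk.length_copy] at h3
    have h4 : 0 < C.D x := by omega
    refine ⟨h4, ?_⟩
    rw [← hp4 h4, h2]
    simp
  rcases le_total (C.D y) (C.D x) with h | h
  · exact Or.inl (key x y hxy hc h)
  · exact Or.inr (key y x hxy.symm hc.symm h)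

/-- two walks which leave a set -/
theorem leave {b c : V} (p q : G.Walk b c) (hl : p.length + q.length ≤ 11) (X : Set V)
    (hb : b ∈ X) (hc : c ∉ X) {y x y' x' : V}
    (hp : ∀ d ∈ p.darts, d.fst ∈ X → d.snd ∉ X → d.fst = y ∧ d.snd = x)
    (hq : ∀ d ∈ q.darts, d.fst ∈ X → d.snd ∉ X → d.fst = y' ∧ d.snd = x') :
    y = y' ∧ x = x' := by
  have h1 : p.bypass.length ≤ p.length := p.length_bypass_le_length
  have h2 : q.bypass.length ≤ q.length := q.length_bypass_le_length
  have h3 : p.bypass = q.bypass :=
    Pool.Agent.Y335.FL.Ord.uniq h12 p.bypass_isPath q.bypass_isPath (by omega)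
  obtain ⟨d, hd, hd1, hd2⟩ := p.bypass.exists_boundary_dart X hb hc
  have h4 := hp d (p.darts_bypass_subset_darts hd) hd1 hd2
  rw [h3] at hd
  have h5 := hq d (q.darts_bypass_subset_darts hd) hd1 hd2
  exact ⟨h4.1.symm.trans h5.1, h4.2.symm.trans h5.2⟩

/-- two edges which leave a cell -/
theorem exit {x x' y y' t : V} (hxy : G.Adj x y) (hxy' : G.Adj x' y') (w : G.Walk x x')
    (p : G.Walk y t) (q : G.Walk y' t) (hw : ∀ z ∈ w.support, C.cc z = C.cc x)
    (hp : ∀ z ∈ p.support, C.cc z ≠ C.cc x) (hq : ∀ z ∈ q.support, C.cc z ≠ C.cc x)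
    (hl : w.length + p.length + q.length + 2 ≤ 11) : y = y' ∧ x = x' := by
  refine leave h12 (p.reverse.append (Walk.cons hxy.symm w))
    (q.reverse.append (Walk.cons hxy'.symm Walk.nil)) ?_ {z | C.cc z ≠ C.cc x}
    (hp t p.end_mem_support) (fun h => h (hw x' w.end_mem_support)) ?_ ?_
  · rw [Walk.length_append, Walk.length_append, Walk.length_reverse, Walk.length_reverse,
      Walk.length_cons, Walk.length_cons, Walk.length_nil]
    omega
  · intro d hd h1 h2
    rw [Walk.darts_append, List.mem_append, Walk.darts_cons, List.mem_cons] at hd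
    rcases hd with hd | hd | hd
    · have h3 := p.reverse.dart_snd_mem_support_of_mem_darts hd
      rw [Walk.support_reverse, List.mem_reverse] at h3
      exact absurd (hp _ h3) h2
    · rw [hd]
      exact ⟨rfl, rfl⟩
    · exact absurd (hw _ (w.dart_fst_mem_support_of_mem_darts hd)) h1
  · intro d hd h1 h2
    rw [Walk.darts_append, List.mem_append, Walk.darts_cons, List.mem_cons] at hd
    rcases hd with hd | hd | hd
    · have h3 := q.reverse.dart_snd_mem_support_of_mem_darts hd
      rw [Walk.support_reverse, List.mem_reverse] at h3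
      exact absurd (hq _ h3) h2
    · rw [hd]
      exact ⟨rfl, rfl⟩
    · rw [Walk.darts_nil] at hd
      exact absurd hd List.not_mem_nil

omit h12 in
/-- a walk inside a cell -/
theorem in_cell {y y' : V} (h : C.cc y = C.cc y') : ∃ p : G.Walk y y',
    p.length = C.D y + C.D y' ∧ ∀ z ∈ p.support, C.cc z = C.cc y := by
  obtain ⟨p, hp1, _, hp3, -⟩ := C.tree_walk _ y rfl
  obtain ⟨q, hq1, _, hq3, -⟩ := C.tree_walk _ y' rfl
  refine ⟨p.append ((q.copy rfl h.symm).reverse), ?_, ?_⟩
  · rw [Walk.length_append, Walk.length_reverse, Walk.length_copy, hp1, hq1]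
  · intro z hz
    rw [Walk.mem_support_append_iff, Walk.support_reverse, List.mem_reverse,
      Walk.support_copy] at hz
    rcases hz with hz | hz
    · exact (hp3 z hz).1
    · exact (hq3 z hz).1.trans h.symm

/-- at most one edge between parts of two cells -/
theorem nt_unique {x x' y y' : V} (hxy : G.Adj x y) (hxy' : G.Adj x' y') (w : G.Walk x x')
    (hw : ∀ z ∈ w.support, C.cc z = C.cc x) (hne : C.cc y ≠ C.cc x) (hc : C.cc y = C.cc y')
    (hl : w.length + 2 + C.D y + C.D y' ≤ 11) : y = y' ∧ x = x' := by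
  obtain ⟨p, hp1, _, hp3, -⟩ := C.tree_walk _ y rfl
  obtain ⟨q, hq1, _, hq3, -⟩ := C.tree_walk _ y' rfl
  refine C.exit h12 hxy hxy' w p (q.copy rfl hc.symm) hw ?_ ?_ ?_
  · intro z hz
    rw [(hp3 z hz).1]
    exact hne
  · intro z hz
    rw [Walk.support_copy] at hz
    rw [(hq3 z hz).1, ← hc]
    exact hne
  · rw [Walk.length_copy]
    omega

end Cells

end Run7.h677.Dom
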