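import Pool.Agent.Run7.h677.Dom.Cells

/-!
# Counting edges between cells
-/

set_option autoImplicit false
set_option linter.unusedSectionVars false

namespace Run7.h677.Dom

open SimpleGraph Finset

variable {V : Type} [Fintype V] [DecidableEq V] {G : SimpleGraph V}

namespace Cells

variable {r : ℕ} {S : Finset V} (C : Cells G r S)

open Classical in
/-- the other cells which contain a neighbour of `x` -/
noncomputable def K (x : V) : Finset V :=
  univ.filter (fun b => b ≠ C.cc x ∧ ∃ y, G.Adj x y ∧ C.cc y = b)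

/-- the children of `x` -/
def Ch (x : V) : Finset V := univ.filter (fun z => 0 < C.D z ∧ C.par z = x)

open Classical in
/-- the vertices which are not isolated -/
noncomputable def Nv (_C : Cells G r S) : Finset V := univ.filter (fun x => ∃ y, G.Adj x y)

/-- the vertices in `S` which are not isolated -/
noncomputable def Z : Finset V := C.Nv.filter (fun x => C.D x = 0)

theorem mem_K {x b : V} : b ∈ C.K x ↔ b ≠ C.cc x ∧ ∃ y, G.Adj x y ∧ C.cc y = b := by
  classical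
  unfold K
  rw [mem_filter]
  exact ⟨fun h => h.2, fun h => ⟨mem_univ _, h⟩⟩

theorem mem_Ch {x z : V} : z ∈ C.Ch x ↔ 0 < C.D z ∧ C.par z = x := by
  unfold Ch
  rw [mem_filter]
  exact ⟨fun h => h.2, fun h => ⟨mem_univ _, h⟩⟩

theorem mem_Nv {x : V} : x ∈ C.Nv ↔ ∃ y, G.Adj x y := by
  classical
  unfold Nv
  rw [mem_filter]
  exact ⟨fun h => h.2, fun h => ⟨mem_univ _, h⟩⟩

theorem mem_Z {x : V} : x ∈ C.Z ↔ x ∈ C.Nv ∧ C.D x = 0 := by
  unfold Z
  rw [mem_filter]

theorem Z_sub : C.Z ⊆ S := by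
  intro x hx
  obtain ⟨h1, h2⟩ := C.mem_Z.1 hx
  obtain ⟨y, hy⟩ := C.mem_Nv.1 h1
  exact C.h0 x y hy h2

theorem card_Z : C.Z.card ≤ S.card := card_le_card C.Z_sub

theorem cc_mem : ∀ (n : ℕ) (x : V), C.D x = n → x ∈ C.Nv → C.cc x ∈ C.Z := by
  intro n
  induction n with
  | zero =>
    intro x hx hN
    rw [C.c0 x hx]
    exact C.mem_Z.2 ⟨hN, hx⟩
  | succ n ih =>
    intro x hx hN
    have h1 := C.dp x (by omega)
    rw [← C.cp x (by omega)]
    exact ih _ (by omega) (C.mem_Nv.2 ⟨x, (C.ap x (by omega)).symm⟩)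

theorem cc_mem' {x : V} (hx : x ∈ C.Nv) : C.cc x ∈ C.Z := C.cc_mem _ x rfl hx

theorem adj_Nv {x y : V} (h : G.Adj x y) : x ∈ C.Nv := C.mem_Nv.2 ⟨y, h⟩

theorem K_sub (x : V) : C.K x ⊆ C.Z.erase (C.cc x) := by
  intro b hb
  obtain ⟨h1, y, hy, h2⟩ := C.mem_K.1 hb
  exact mem_erase.2 ⟨h1, h2 ▸ C.cc_mem' (C.adj_Nv hy.symm)⟩

theorem card_K {x : V} (hx : x ∈ C.Nv) : (C.K x).card + 1 ≤ C.Z.card := by
  have h1 := card_le_card (C.K_sub x)
  rw [card_erase_of_mem (C.cc_mem' hx)] at h1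
  have h2 := card_pos.2 ⟨_, C.cc_mem' hx⟩
  omega

variable (h12 : ∀ (w : V) (c : G.Walk w w), c.IsCycle → 12 ≤ c.length)

include h12

theorem K_disj (hr : r ≤ 5) {x x' : V} (hne : x ≠ x') (w : G.Walk x x')
    (hw : ∀ z ∈ w.support, C.cc z = C.cc x) (hl : w.length + 2 + 2 * r ≤ 11) :
    Disjoint (C.K x) (C.K x') := by
  rw [Finset.disjoint_left]
  intro b hb hb'
  obtain ⟨h1, y, hy, h2⟩ := C.mem_K.1 hb
  obtain ⟨h1', y', hy', h2'⟩ := C.mem_K.1 hb'
  have h3 := C.hD y x hy.symm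
  have h4 := C.hD y' x' hy'.symm
  exact hne (C.nt_unique h12 hy hy' w hw (by rw [h2]; exact h1) (h2.trans h2'.symm)
    (by omega)).2

variable (h3 : ∀ x y, G.Adj x y → ∃ a b c, G.Adj x a ∧ G.Adj x b ∧ G.Adj x c ∧ a ≠ b ∧ a ≠ c ∧
  b ≠ c)

include h3

/-- degrees -/
theorem deg3 (hr : r ≤ 4) {x : V} (hx : x ∈ C.Nv) :
    3 ≤ (if 0 < C.D x then 1 else 0) + (C.Ch x).card + (C.K x).card := by
  classical
  obtain ⟨y, hy⟩ := C.mem_Nv.1 hx
  obtain ⟨a, b, c, ha, hb, hc, hab, hac, hbc⟩ := h3 x y hy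
  set T : Finset V := {a, b, c} with hT
  have hTc : T.card = 3 := card_eq_three.2 ⟨a, b, c, hab, hac, hbc, rfl⟩
  have hTa : ∀ z ∈ T, G.Adj x z := by
    intro z hz
    rw [hT, mem_insert, mem_insert, mem_singleton] at hz
    rcases hz with rfl | rfl | rfl
    · exact ha
    · exact hb
    · exact hc
  set P : Finset V := if 0 < C.D x then {C.par x} else ∅ with hP
  have hPc : P.card = if 0 < C.D x then 1 else 0 := by
    rw [hP]
    split_ifs <;> simp
  set T' := T.filter (fun z => C.cc z ≠ C.cc x) with hT'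
  have h5 : T ⊆ P ∪ C.Ch x ∪ T' := by
    intro z hz
    have hz1 := hTa z hz
    by_cases h : C.cc z = C.cc x
    · rcases C.same_cell h12 (by omega) hz1 h.symm with ⟨h6, h7⟩ | ⟨h6, h7⟩
      · refine mem_union_left _ (mem_union_left _ ?_)
        rw [hP, if_pos h6, mem_singleton]
        exact h7.symm
      · exact mem_union_left _ (mem_union_right _ (C.mem_Ch.2 ⟨h6, h7⟩))
    · exact mem_union_right _ (mem_filter.2 ⟨hz, h⟩)
  have h6 : T'.card ≤ (C.K x).card := by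
    refine card_le_card_of_injOn C.cc ?_ ?_
    · intro z hz
      obtain ⟨h7, h8⟩ := mem_filter.1 (mem_coe.1 hz)
      exact mem_coe.2 (C.mem_K.2 ⟨h8, z, hTa z h7, rfl⟩)
    · intro z hz z' hz' h
      obtain ⟨h7, h8⟩ := mem_filter.1 (mem_coe.1 hz)
      obtain ⟨h7', h8'⟩ := mem_filter.1 (mem_coe.1 hz')
      have h9 := C.hD z x (hTa z h7).symm
      have h10 := C.hD z' x (hTa z' h7').symm
      refine (C.nt_unique h12 (hTa z h7) (hTa z' h7') Walk.nil ?_ h8 h ?_).1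
      · intro u hu
        rw [Walk.support_nil, List.mem_singleton] at hu
        rw [hu]
      · rw [Walk.length_nil]
        omega
  have h7 := (card_le_card h5).trans ((card_union_le _ _).trans
    (Nat.add_le_add_right (card_union_le _ _) _))
  rw [hPc, hTc] at h7
  omega

omit h12 h3 in
/-- a deepest vertex -/
theorem exists_max {x y : V} (h : G.Adj x y) : ∃ z ∈ C.Nv, ∀ u ∈ C.Nv, C.D u ≤ C.D z :=
  exists_max_image C.Nv C.D ⟨x, C.adj_Nv h⟩

omit h12 h3 in
theorem child_Nv {x z : V} (h : z ∈ C.Ch x) : z ∈ C.Nv :=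
  C.adj_Nv (C.ap z (C.mem_Ch.1 h).1)

omit h12 h3 in
theorem child_adj {x z : V} (h : z ∈ C.Ch x) : G.Adj z x := by
  have := C.ap z (C.mem_Ch.1 h).1
  rwa [(C.mem_Ch.1 h).2] at this

omit h12 h3 in
theorem child_D {x z : V} (h : z ∈ C.Ch x) : C.D x + 1 = C.D z := by
  have := C.dp z (C.mem_Ch.1 h).1
  rwa [(C.mem_Ch.1 h).2] at this

omit h12 h3 in
theorem child_cc {x z : V} (h : z ∈ C.Ch x) : C.cc x = C.cc z := by
  have := C.cp z (C.mem_Ch.1 h).1
  rwa [(C.mem_Ch.1 h).2] at this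

omit h12 h3 in
theorem Ch_empty {x : V} (hmax : ∀ u ∈ C.Nv, C.D u ≤ C.D x) : C.Ch x = ∅ := by
  rw [eq_empty_iff_forall_notMem]
  intro z hz
  have h1 := hmax z (C.child_Nv hz)
  have h2 := C.child_D hz
  omega

omit h12 h3 in
theorem Ch_empty' {x y : V} (hmax : ∀ u ∈ C.Nv, C.D u ≤ C.D y) (h : C.D y ≤ C.D x) :
    C.Ch x = ∅ := C.Ch_empty fun u hu => (hmax u hu).trans h

include C in
/-- radius five, one ball -/
theorem five_one (hr : r ≤ 5) (hS : S.card ≤ 1) {x y : V} (hxy : G.Adj x y) : False := by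
  obtain ⟨z, hz, hmax⟩ := C.exists_max hxy
  obtain ⟨t, ht⟩ := C.mem_Nv.1 hz
  obtain ⟨a, b, c, ha, hb, hc, hab, hac, hbc⟩ := h3 z t ht
  have key : ∀ u, G.Adj z u → C.par z = u := by
    intro u hu
    have h1 : C.cc z = C.cc u := card_le_one.1 (C.card_Z.trans hS) _ (C.cc_mem' hz) _
      (C.cc_mem' (C.adj_Nv hu.symm))
    rcases C.same_cell h12 hr hu h1 with h | h
    · exact h.2
    · have h2 := C.dp u h.1
      rw [h.2] at h2
      have h3 := hmax u (C.adj_Nv hu.symm)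
      omega
  exact hab ((key a ha).symm.trans (key b hb))

include C in
/-- radius four, two balls -/
theorem four_two (hr : r ≤ 4) (hS : S.card ≤ 2) {x y : V} (hxy : G.Adj x y) : False := by
  obtain ⟨z, hz, hmax⟩ := C.exists_max hxy
  have h1 := C.deg3 h12 h3 hr hz
  have h2 := C.card_K hz
  have h4 := C.card_Z
  rw [C.Ch_empty hmax, card_empty] at h1
  split_ifs at h1 <;> omega

end Cells

end Run7.h677.Dom
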