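import Pool.Agent.Run7.h677.Dom.Two
import Pool.Agent.Run7.h677.Dom.Abs

/-!
# Twenty-four balls of radius one
-/

set_option autoImplicit false
set_option linter.unusedSectionVars false
set_option linter.unusedVariables false

namespace Run7.h677.Dom

open SimpleGraph Finset

variable {V : Type} [Fintype V] [DecidableEq V] {G : SimpleGraph V}

namespace Cells

variable {r : ℕ} {S : Finset V} (C : Cells G r S)

open Classical in
/-- the cells adjacent to the cell of `b` -/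
noncomputable def Nb (b : V) : Finset V :=
  C.Z.filter (fun a => ∃ x, C.cc x = a ∧ b ∈ C.K x)

open Classical in
/-- the cells adjacent to the cell of `b` by an edge from a leaf -/
noncomputable def Mb (b : V) : Finset V :=
  C.Z.filter (fun a => ∃ x, 0 < C.D x ∧ C.cc x = a ∧ b ∈ C.K x)

theorem K_ex {x b : V} (h : b ∈ C.K x) : C.cc x ∈ C.Z := by
  obtain ⟨_, y, hy, _⟩ := C.mem_K.1 h
  exact C.cc_mem' (C.adj_Nv hy)

theorem mem_Nb {a b : V} : a ∈ C.Nb b ↔ ∃ x y, G.Adj x y ∧ C.cc x = a ∧ C.cc y = b ∧ b ≠ a := by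
  classical
  unfold Nb
  rw [mem_filter]
  constructor
  · rintro ⟨_, x, h1, h2⟩
    obtain ⟨h3, y, h4, h5⟩ := C.mem_K.1 h2
    exact ⟨x, y, h4, h1, h5, h1 ▸ h3⟩
  · rintro ⟨x, y, h1, h2, h3, h4⟩
    exact ⟨h2 ▸ C.cc_mem' (C.adj_Nv h1), x, h2, C.mem_K.2 ⟨h2 ▸ h4, y, h1, h3⟩⟩

theorem Nb_symm {a b : V} (h : a ∈ C.Nb b) : b ∈ C.Nb a := by
  obtain ⟨x, y, h1, h2, h3, h4⟩ := C.mem_Nb.1 h
  exact C.mem_Nb.2 ⟨y, x, h1.symm, h3, h2, h4.symm⟩

theorem mem_Mb {a b : V} : a ∈ C.Mb b ↔ ∃ x, 0 < C.D x ∧ C.cc x = a ∧ b ∈ C.K x := by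
  classical
  unfold Mb
  rw [mem_filter]
  refine ⟨fun h => h.2, fun h => ⟨?_, h⟩⟩
  obtain ⟨x, _, h1, h2⟩ := h
  exact h1 ▸ C.K_ex h2

theorem Mb_sub (b : V) : C.Mb b ⊆ C.Nb b := by
  classical
  intro a ha
  obtain ⟨x, _, h1, h2⟩ := C.mem_Mb.1 ha
  unfold Nb
  rw [mem_filter]
  exact ⟨h1 ▸ C.K_ex h2, x, h1, h2⟩

theorem Nb_sub (b : V) : C.Nb b ⊆ C.Z := by
  classical
  unfold Nb
  exact filter_subset _ _

variable (h12 : ∀ (w : V) (c : G.Walk w w), c.IsCycle → 12 ≤ c.length)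

include h12

/-- no triangles of cells -/
theorem no_tri (hr : r ≤ 1) {a b c : V} (h : a ∈ C.Nb b) (h' : c ∈ C.Nb a) : c ∉ C.Nb b := by
  intro h''
  obtain ⟨x, y, hxy, hx, hy, hba⟩ := C.mem_Nb.1 h
  obtain ⟨z, x', hzx, hz, hx', hac⟩ := C.mem_Nb.1 h'
  obtain ⟨z', y', hzy, hz', hy', hbc⟩ := C.mem_Nb.1 h''
  obtain ⟨w, hw, hw'⟩ := C.in_cell (hx.trans hx'.symm)
  obtain ⟨p, hp, hp'⟩ := C.in_cell (hy.trans hy'.symm)
  obtain ⟨q, hq, hq'⟩ := C.in_cell (hz.trans hz'.symm)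
  have e1 := C.hD x y hxy
  have e2 := C.hD y x hxy.symm
  have e3 := C.hD z x' hzx
  have e4 := C.hD x' z hzx.symm
  have e5 := C.hD z' y' hzy
  have e6 := C.hD y' z' hzy.symm
  have h1 := C.exit h12 hxy hzx.symm w (p.append (Walk.cons hzy.symm Walk.nil)) q hw' ?_ ?_ ?_
  · apply hbc
    rw [← hy, ← hz, h1.1]
  · intro t ht
    rw [Walk.mem_support_append_iff] at ht
    rw [hx]
    rcases ht with ht | ht
    · rw [hp' t ht, hy]
      exact hba
    · simp only [Walk.support_cons, Walk.support_nil, List.mem_cons, List.not_mem_nil, or_false]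
        at ht
      rcases ht with rfl | rfl
      · rw [hy']
        exact hba
      · rw [hz']
        exact hac.symm
  · intro t ht
    rw [hq' t ht, hx, hz]
    exact hac.symm
  · rw [Walk.length_append, Walk.length_cons, Walk.length_nil]
    omega

/-- the common neighbours of two cells adjacent to the same vertex -/
theorem no_four (hr : r ≤ 1) {x b c a' : V} (hb : b ∈ C.K x) (hc : c ∈ C.K x) (hbc : b ≠ c)
    (h : a' ∈ C.Nb b) (h' : a' ∈ C.Nb c) : a' = C.cc x := by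
  by_contra hne
  obtain ⟨hbx, y, hxy, hy⟩ := C.mem_K.1 hb
  obtain ⟨hcx, z, hxz, hz⟩ := C.mem_K.1 hc
  obtain ⟨u, y', huy, hu, hy', hba⟩ := C.mem_Nb.1 h
  obtain ⟨v, z', hvz, hv, hz', hca⟩ := C.mem_Nb.1 h'
  obtain ⟨w, hw, hw'⟩ := C.in_cell (hu.trans hv.symm)
  obtain ⟨p, hp, hp'⟩ := C.in_cell (hy.trans hy'.symm)
  obtain ⟨q, hq, hq'⟩ := C.in_cell (hz.trans hz'.symm)
  have e1 := C.hD u y' huy
  have e2 := C.hD v z' hvz
  have e3 := C.hD y x hxy.symm
  have e4 := C.hD z x hxz.symm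
  have e5 := C.hD y' u huy.symm
  have e6 := C.hD z' v hvz.symm
  have h1 := C.exit h12 hxy hxz Walk.nil (p.append (Walk.cons huy.symm w))
    (q.append (Walk.cons hvz.symm Walk.nil)) ?_ ?_ ?_ ?_
  · apply hbc
    rw [← hy, ← hz, h1.1]
  · intro t ht
    rw [Walk.support_nil, List.mem_singleton] at ht
    rw [ht]
  · intro t ht
    rw [Walk.mem_support_append_iff, Walk.support_cons, List.mem_cons] at ht
    rcases ht with ht | rfl | ht
    · rw [hp' t ht, hy]
      exact hbx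
    · rw [hy']
      exact hbx
    · rw [hw' t ht, hu]
      exact hne
  · intro t ht
    rw [Walk.mem_support_append_iff] at ht
    rcases ht with ht | ht
    · rw [hq' t ht, hz]
      exact hcx
    · simp only [Walk.support_cons, Walk.support_nil, List.mem_cons, List.not_mem_nil, or_false]
        at ht
      rcases ht with rfl | rfl
      · rw [hz']
        exact hcx
      · rw [hv]
        exact hne
  · rw [Walk.length_append, Walk.length_append, Walk.length_cons, Walk.length_cons,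
      Walk.length_nil, Walk.length_nil]
    omega

/-- the number of the edges between the cells which come from leaves -/
theorem sum_Mb (hr : r ≤ 1) : ∑ x ∈ C.P, (C.K x).card ≤ ∑ b ∈ C.Z, (C.Mb b).card := by
  classical
  have h1 : ∑ x ∈ C.P, (C.K x).card = (C.P.sigma (fun x => C.K x)).card := (card_sigma _ _).symm
  have h2 : ∑ b ∈ C.Z, (C.Mb b).card = (C.Z.sigma (fun b => C.Mb b)).card := (card_sigma _ _).symm
  rw [h1, h2]
  refine card_le_card_of_injOn (fun p => ⟨p.2, C.cc p.1⟩) ?_ ?_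
  · rintro ⟨x, b⟩ h
    obtain ⟨h3, h4⟩ := mem_sigma.1 (mem_coe.1 h)
    exact mem_coe.2 (mem_sigma.2 ⟨mem_of_mem_erase (C.K_sub x h4),
      C.mem_Mb.2 ⟨x, C.mem_P.1 h3, rfl, h4⟩⟩)
  · rintro ⟨x, b⟩ h ⟨x', b'⟩ h' heq
    simp only [Sigma.mk.injEq, heq_eq_eq] at heq
    obtain ⟨h5, h6⟩ := heq
    subst h5
    have := C.K_inj h12 (by omega) (mem_sigma.1 (mem_coe.1 h)).2 (mem_sigma.1 (mem_coe.1 h')).2 h6
    simp only at this
    rw [this]

variable (h3 : ∀ x y, G.Adj x y → ∃ a b c, G.Adj x a ∧ G.Adj x b ∧ G.Adj x c ∧ a ≠ b ∧ a ≠ c ∧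
  b ≠ c)

include h3

theorem leaf_K (hr : r ≤ 1) {x : V} (hx : 0 < C.D x) : 2 ≤ (C.K x).card := by
  have hN := C.P_Nv (C.mem_P.2 hx)
  have h1 := C.deg3 h12 h3 (by omega) hN
  have h2 : C.Ch x = ∅ := by
    rw [eq_empty_iff_forall_notMem]
    intro z hz
    have h3 := C.child_D hz
    have h4 := C.hD z x (C.child_adj hz)
    omega
  rw [h2, card_empty] at h1
  split_ifs at h1 <;> omega

/-- radius one, twenty-four balls -/
theorem one_many (hr : r ≤ 1) (hS : S.card ≤ 24) (hN : 126 ≤ C.Nv.card) : False := by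
  have h1 := abs_sum C.Z C.Nb C.Mb (fun b _ => C.Nb_sub b) (fun a b h => C.Nb_symm h)
    (fun a b c h h' => C.no_tri h12 hr h h') (fun b _ => C.Mb_sub b) ?_
  · have h2 : 2 * C.P.card ≤ ∑ x ∈ C.P, (C.K x).card := by
      have : ∑ x ∈ C.P, 2 ≤ ∑ x ∈ C.P, (C.K x).card :=
        sum_le_sum fun x hx => C.leaf_K h12 h3 hr (C.mem_P.1 hx)
      rw [sum_const, smul_eq_mul] at this
      omega
    have h4 := C.sum_Mb h12 hr
    have h5 := C.card_Nv
    have h6 := C.card_Z.trans hS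
    generalize C.Z.card = z at *
    interval_cases z <;> omega
  · intro b hb a ha
    obtain ⟨x, hx, hxa, hbx⟩ := C.mem_Mb.1 ha
    obtain ⟨c, hc, hcb⟩ : ∃ c ∈ C.K x, c ≠ b :=
      exists_mem_ne (by
        have := C.leaf_K h12 h3 hr hx
        omega) b
    refine ⟨c, ?_, hcb, ?_⟩
    · obtain ⟨h5, z, h6, h7⟩ := C.mem_K.1 hc
      exact C.mem_Nb.2 ⟨z, x, h6.symm, h7, hxa, by rw [← hxa]; exact h5.symm⟩
    · intro a' h1 h2
      rw [← hxa]
      exact C.no_four h12 hr hbx hc hcb.symm h1 h2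

end Cells

end Run7.h677.Dom
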