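import Pool.Agent.Run7.h677.Dom.Count

/-!
# Four balls of radius three
-/

set_option autoImplicit false
set_option linter.unusedSectionVars false
set_option linter.unusedVariables false

namespace Run7.h677.Dom

open SimpleGraph Finset

variable {V : Type} [Fintype V] [DecidableEq V] {G : SimpleGraph V}

namespace Cells

variable {r : ℕ} {S : Finset V} (C : Cells G r S)

variable (h12 : ∀ (w : V) (c : G.Walk w w), c.IsCycle → 12 ≤ c.length)

include h12

theorem disj1 (hr : r ≤ 4) {x p : V} (h : x ∈ C.Ch p) : Disjoint (C.K x) (C.K p) := by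
  have h1 := C.child_adj h
  refine C.K_disj h12 (by omega) h1.ne (Walk.cons h1 Walk.nil) ?_ ?_
  · intro z hz
    simp only [Walk.support_cons, Walk.support_nil, List.mem_cons, List.not_mem_nil, or_false]
      at hz
    rcases hz with rfl | rfl
    · rfl
    · exact C.child_cc h
  · simp only [Walk.length_cons, Walk.length_nil]
    omega

theorem disj2 (hr : r ≤ 3) {x p g : V} (h : x ∈ C.Ch p) (h' : p ∈ C.Ch g) :
    Disjoint (C.K x) (C.K g) := by
  have h1 := C.child_adj h
  have h2 := C.child_adj h'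
  have hne : x ≠ g := by
    rintro rfl
    have := C.child_D h
    have := C.child_D h'
    omega
  refine C.K_disj h12 (by omega) hne (Walk.cons h1 (Walk.cons h2 Walk.nil)) ?_ ?_
  · intro z hz
    simp only [Walk.support_cons, Walk.support_nil, List.mem_cons, List.not_mem_nil, or_false]
      at hz
    rcases hz with rfl | rfl | rfl
    · rfl
    · exact C.child_cc h
    · exact (C.child_cc h').trans (C.child_cc h)
  · simp only [Walk.length_cons, Walk.length_nil]
    omega

theorem disjS (hr : r ≤ 3) {x y p : V} (h : x ∈ C.Ch p) (h' : y ∈ C.Ch p) (hne : x ≠ y) :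
    Disjoint (C.K x) (C.K y) := by
  have h1 := C.child_adj h
  have h2 := C.child_adj h'
  refine C.K_disj h12 (by omega) hne (Walk.cons h1 (Walk.cons h2.symm Walk.nil)) ?_ ?_
  · intro z hz
    simp only [Walk.support_cons, Walk.support_nil, List.mem_cons, List.not_mem_nil, or_false]
      at hz
    rcases hz with rfl | rfl | rfl
    · rfl
    · exact C.child_cc h
    · exact (C.child_cc h').symm.trans (C.child_cc h)
  · simp only [Walk.length_cons, Walk.length_nil]
    omega

theorem disj3 (hr : r ≤ 3) {x p g q : V} (h : x ∈ C.Ch p) (h' : p ∈ C.Ch g) (h'' : q ∈ C.Ch g) :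
    Disjoint (C.K x) (C.K q) := by
  have h1 := C.child_adj h
  have h2 := C.child_adj h'
  have h3 := C.child_adj h''
  have hne : x ≠ q := by
    rintro rfl
    have := C.child_D h
    have := C.child_D h'
    have := C.child_D h''
    omega
  refine C.K_disj h12 (by omega) hne (Walk.cons h1 (Walk.cons h2 (Walk.cons h3.symm Walk.nil)))
    ?_ ?_
  · intro z hz
    simp only [Walk.support_cons, Walk.support_nil, List.mem_cons, List.not_mem_nil, or_false]
      at hz
    rcases hz with rfl | rfl | rfl | rfl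
    · rfl
    · exact C.child_cc h
    · exact (C.child_cc h').trans (C.child_cc h)
    · exact (C.child_cc h'').symm.trans ((C.child_cc h').trans (C.child_cc h))
  · simp only [Walk.length_cons, Walk.length_nil]
    omega

variable (h3 : ∀ x y, G.Adj x y → ∃ a b c, G.Adj x a ∧ G.Adj x b ∧ G.Adj x c ∧ a ≠ b ∧ a ≠ c ∧
  b ≠ c)

omit h12 in
/-- two disjoint sets `K` -/
theorem two_K {x y a : V} (hx : C.K x ⊆ C.Z.erase a) (hy : C.K y ⊆ C.Z.erase a) (ha : a ∈ C.Z)
    (h : Disjoint (C.K x) (C.K y)) : (C.K x).card + (C.K y).card + 1 ≤ C.Z.card := by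
  have h1 := card_le_card (union_subset hx hy)
  rw [card_union_of_disjoint h, card_erase_of_mem ha] at h1
  have h2 := card_pos.2 ⟨_, ha⟩
  omega

omit h12 in
/-- three disjoint sets `K` -/
theorem three_K {x y z a : V} (hx : C.K x ⊆ C.Z.erase a) (hy : C.K y ⊆ C.Z.erase a)
    (hz : C.K z ⊆ C.Z.erase a) (ha : a ∈ C.Z)
    (h : Disjoint (C.K x) (C.K y)) (h' : Disjoint (C.K x) (C.K z))
    (h'' : Disjoint (C.K y) (C.K z)) :
    (C.K x).card + (C.K y).card + (C.K z).card + 1 ≤ C.Z.card := by
  have h1 := card_le_card (union_subset (union_subset hx hy) hz)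
  rw [card_union_of_disjoint (by rw [disjoint_union_left]; exact ⟨h', h''⟩),
    card_union_of_disjoint h, card_erase_of_mem ha] at h1
  have h2 := card_pos.2 ⟨_, ha⟩
  omega

include h3

/-- radius three, four balls -/
theorem three_four (hr : r ≤ 3) (hS : S.card ≤ 4) (hN : 5 ≤ C.Nv.card) : False := by
  have hZ := C.card_Z.trans hS
  obtain ⟨v, hv⟩ := card_pos.1 (show 0 < C.Nv.card by omega)
  obtain ⟨u, hu⟩ := C.mem_Nv.1 hv
  obtain ⟨x, hx, hmax⟩ := C.exists_max hu
  -- deepest vertices have two neighbours in other cells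
  have hxD : 0 < C.D x := by
    by_contra h0
    have h1 : C.Nv ⊆ C.Z := by
      intro z hz
      have := hmax z hz
      exact C.mem_Z.2 ⟨hz, by omega⟩
    have := card_le_card h1
    omega
  have hK2 : ∀ z ∈ C.Nv, C.D x ≤ C.D z → 2 ≤ (C.K z).card := by
    intro z hz h
    have h1 := C.deg3 h12 h3 (by omega) hz
    rw [C.Ch_empty' hmax h, card_empty, if_pos (by omega)] at h1
    omega
  have hone : ∀ q, C.D x = C.D q + 1 → (C.Ch q).card ≤ 1 := by
    intro q hq
    rw [card_le_one]
    intro y hy z hz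
    by_contra hne
    have hy1 := C.child_D hy
    have hz1 := C.child_D hz
    have h1 := C.two_K (x := y) (y := z) (a := C.cc q) (by rw [C.child_cc hy]; exact C.K_sub y)
      (by rw [C.child_cc hz]; exact C.K_sub z)
      (by rw [C.child_cc hy]; exact C.cc_mem' (C.child_Nv hy))
      (C.disjS h12 hr hy hz hne)
    have h2 := hK2 y (C.child_Nv hy) (by omega)
    have h3 := hK2 z (C.child_Nv hz) (by omega)
    omega
  have hK : ∀ z : V, ∀ a, C.cc z = a → C.K z ⊆ C.Z.erase a := by
    rintro z a rfl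
    exact C.K_sub z
  set p := C.par x with hp
  have hxp : x ∈ C.Ch p := C.mem_Ch.2 ⟨hxD, rfl⟩
  have hpN : p ∈ C.Nv := C.adj_Nv (C.child_adj hxp).symm
  have hpD := C.child_D hxp
  have hpc := C.child_cc hxp
  have hxK := hK2 x hx le_rfl
  have hp1 := hone p (by omega)
  have hp3 := C.deg3 h12 h3 (by omega) hpN
  have ha := C.cc_mem' hx
  have h5 := C.two_K (hK x _ rfl) (hK p _ hpc) ha (C.disj1 h12 (by omega) hxp)
  have hpD0 : 0 < C.D p := by
    by_contra h0
    rw [if_neg h0] at hp3
    omega
  rw [if_pos hpD0] at hp3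
  set g := C.par p with hg
  have hpg : p ∈ C.Ch g := C.mem_Ch.2 ⟨hpD0, rfl⟩
  have hgN : g ∈ C.Nv := C.adj_Nv (C.child_adj hpg).symm
  have hgc := (C.child_cc hpg).trans hpc
  have h6 := C.three_K (hK x _ rfl) (hK p _ hpc) (hK g _ hgc) ha (C.disj1 h12 (by omega) hxp)
    (C.disj2 h12 hr hxp hpg) (C.disj1 h12 (by omega) hpg)
  have hg3 := C.deg3 h12 h3 (by omega) hgN
  have hg2 : 2 ≤ (C.Ch g).card := by
    split_ifs at hg3 <;> omega
  obtain ⟨q, hq, hqp⟩ : ∃ q ∈ C.Ch g, q ≠ p := exists_mem_ne (by omega) p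
  have hqc := (C.child_cc hq).symm.trans hgc
  have h7 := C.three_K (hK x _ rfl) (hK p _ hpc) (hK q _ hqc) ha (C.disj1 h12 (by omega) hxp)
    (C.disj3 h12 hr hxp hpg hq) (C.disjS h12 hr hpg hq hqp.symm)
  have hq3 := C.deg3 h12 h3 (by omega) (C.child_Nv hq)
  have hqD := C.child_D hq
  have hgD := C.child_D hpg
  have hq1 := hone q (by omega)
  split_ifs at hq3 <;> omega

end Cells

end Run7.h677.Dom
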