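import Pool.Agent.Run7.h677.Dom.Three

/-!
# Twelve balls of radius two
-/

set_option autoImplicit false
set_option linter.unusedSectionVars false
set_option linter.unusedVariables false

namespace Run7.h677.Dom

open SimpleGraph Finset

variable {V : Type} [Fintype V] [DecidableEq V] {G : SimpleGraph V}

namespace Cells

variable {r : ℕ} {S : Finset V} (C : Cells G r S)

/-- the vertices outside `S` -/
def P : Finset V := univ.filter (fun x => 0 < C.D x)

theorem mem_P {x : V} : x ∈ C.P ↔ 0 < C.D x := by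
  unfold P
  rw [mem_filter]
  exact ⟨fun h => h.2, fun h => ⟨mem_univ _, h⟩⟩

theorem P_Nv {x : V} (h : x ∈ C.P) : x ∈ C.Nv := C.adj_Nv (C.ap x (C.mem_P.1 h))

theorem card_Nv : C.Nv.card = C.Z.card + C.P.card := by
  rw [← card_union_of_disjoint]
  · congr 1
    ext x
    rw [mem_union, C.mem_Z, C.mem_P]
    constructor
    · intro h
      rcases Nat.eq_zero_or_pos (C.D x) with h0 | h0
      · exact Or.inl ⟨h, h0⟩
      · exact Or.inr h0
    · rintro (h | h)
      · exact h.1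
      · exact C.P_Nv (C.mem_P.2 h)
  · rw [Finset.disjoint_left]
    intro x hx hx'
    have := (C.mem_Z.1 hx).2
    have := C.mem_P.1 hx'
    omega

theorem sum_Ch : ∑ x ∈ C.Nv, (C.Ch x).card = C.P.card := by
  rw [card_eq_sum_card_fiberwise (s := C.P) (t := C.Nv) (f := C.par)]
  · refine sum_congr rfl fun x _ => ?_
    congr 1
    ext z
    rw [C.mem_Ch, mem_filter, C.mem_P]
  · intro x hx
    have h := C.mem_P.1 (mem_coe.1 hx)
    exact mem_coe.2 (C.adj_Nv (C.ap x h).symm)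

theorem sum_ind : ∑ x ∈ C.Nv, (if 0 < C.D x then 1 else 0) = C.P.card := by
  rw [← sum_filter, sum_const, smul_eq_mul, mul_one]
  congr 1
  ext x
  rw [mem_filter, C.mem_P]
  exact ⟨fun h => h.2, fun h => ⟨C.P_Nv (C.mem_P.2 h), h⟩⟩

/-- the edges between the cells, as pairs of a vertex and a cell -/
noncomputable def F : Finset (V × V) :=
  C.Nv.biUnion (fun x => (C.K x).image (fun b => (x, b)))

theorem mem_F {x b : V} : (x, b) ∈ C.F ↔ b ∈ C.K x := by
  unfold F
  rw [mem_biUnion]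
  constructor
  · rintro ⟨z, hz, h⟩
    obtain ⟨c, hc, h1⟩ := mem_image.1 h
    obtain ⟨rfl, rfl⟩ := Prod.mk.inj h1
    exact hc
  · intro h
    obtain ⟨_, y, hy, _⟩ := C.mem_K.1 h
    exact ⟨x, C.adj_Nv hy, mem_image.2 ⟨b, h, rfl⟩⟩

theorem card_F : C.F.card = ∑ x ∈ C.Nv, (C.K x).card := by
  unfold F
  rw [card_biUnion]
  · refine sum_congr rfl fun x _ => ?_
    rw [card_image_of_injective]
    intro b c h
    exact (Prod.mk.inj h).2
  · intro x _ y _ hne
    rw [Function.onFun, Finset.disjoint_left]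
    rintro ⟨z, b⟩ h1 h2
    obtain ⟨b1, _, h3⟩ := mem_image.1 h1
    obtain ⟨b2, _, h4⟩ := mem_image.1 h2
    exact hne ((Prod.mk.inj h3).1.trans (Prod.mk.inj h4).1.symm)

variable (h12 : ∀ (w : V) (c : G.Walk w w), c.IsCycle → 12 ≤ c.length)

include h12

theorem K_inj (hr : r ≤ 2) {x x' b : V} (h : b ∈ C.K x) (h' : b ∈ C.K x')
    (hc : C.cc x = C.cc x') : x = x' := by
  obtain ⟨h1, y, hy, h2⟩ := C.mem_K.1 h
  obtain ⟨h1', y', hy', h2'⟩ := C.mem_K.1 h'
  obtain ⟨w, hw, hw'⟩ := C.in_cell hc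
  have h3 := C.hD y x hy.symm
  have h4 := C.hD y' x' hy'.symm
  have h5 := C.hD x y hy
  have h6 := C.hD x' y' hy'
  exact (C.nt_unique h12 hy hy' w hw' (by rw [h2]; exact h1) (h2.trans h2'.symm) (by omega)).2

/-- the number of the edges between the cells -/
theorem card_F_le (hr : r ≤ 2) : C.F.card ≤ C.Z.card * C.Z.card - C.Z.card := by
  rw [← offDiag_card]
  refine card_le_card_of_injOn (fun p => (C.cc p.1, p.2)) ?_ ?_
  · rintro ⟨x, b⟩ h
    have h1 := C.mem_F.1 (mem_coe.1 h)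
    have h2 := mem_erase.1 (C.K_sub x h1)
    obtain ⟨_, y, hy, _⟩ := C.mem_K.1 h1
    exact mem_coe.2 (mem_offDiag.2 ⟨C.cc_mem' (C.adj_Nv hy), h2.2, h2.1.symm⟩)
  · rintro ⟨x, b⟩ h ⟨x', b'⟩ h' heq
    obtain ⟨h1, h2⟩ := Prod.mk.inj heq
    simp only at h1 h2
    subst h2
    have := C.K_inj h12 hr (C.mem_F.1 (mem_coe.1 h)) (C.mem_F.1 (mem_coe.1 h')) h1
    rw [this]

variable (h3 : ∀ x y, G.Adj x y → ∃ a b c, G.Adj x a ∧ G.Adj x b ∧ G.Adj x c ∧ a ≠ b ∧ a ≠ c ∧
  b ≠ c)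

include h3

theorem degree_sum (hr : r ≤ 4) : C.P.card + 3 * C.Z.card ≤ C.F.card := by
  have h1 : ∑ x ∈ C.Nv, 3 ≤ ∑ x ∈ C.Nv, ((if 0 < C.D x then 1 else 0) + (C.Ch x).card +
      (C.K x).card) := sum_le_sum fun x hx => C.deg3 h12 h3 hr hx
  rw [sum_add_distrib, sum_add_distrib, C.sum_ind, C.sum_Ch, ← C.card_F, sum_const,
    smul_eq_mul, C.card_Nv] at h1
  omega

/-- radius two, twelve balls -/
theorem two_twelve (hr : r ≤ 2) (hS : S.card ≤ 12) (hN : 126 ≤ C.Nv.card) : False := by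
  have h1 := C.card_F_le h12 hr
  have h2 := C.degree_sum h12 h3 (by omega)
  have h4 := C.card_Nv
  have h5 := C.card_Z.trans hS
  generalize C.Z.card = z at *
  interval_cases z <;> omega

end Cells

end Run7.h677.Dom
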